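import Pool.Agent.W295.PR.Stm

/-!
Project PR (owner helper295): Taylor expansion modulo the lower central series with universal words.
-/

set_option autoImplicit false

namespace Pool.Agent.W565.PR.T1

open Pool.Agent.W295.PR

section
variable {R : Type} [AddCommGroup R] {G : Type} [Group G]

theorem zdeg_succ {d : ℕ} {f : R → ℤ} (h : ZDeg d f) : ZDeg (d + 1) f := by
  induction d generalizing f with
  | zero =>
    intro k h' x
    show f (x + h' + k) - f (x + h') = f (x + k) - f x
    rw [h k (x + h'), h k x]
    ring
  | succ d ih =>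
    intro k
    exact ih (h k)

theorem zdeg_mono {d e : ℕ} (hde : d ≤ e) {f : R → ℤ} (h : ZDeg d f) : ZDeg e f := by
  induction e, hde using Nat.le_induction with
  | base => exact h
  | succ e _ ih => exact zdeg_succ ih

/-- products of lists of maps of bounded degree -/
theorem bp_list (h1 : S_BP) {N : ℕ} (hN : 1 ≤ N) (r : ℕ) (g : Fin r → R → G)
    (hg : ∀ j, BP N (g j)) : BP N (fun q => (List.ofFn fun j => g j q).prod) := by
  obtain ⟨hmul, -, -, -, hconst⟩ := h1 R G N hN
  induction r with
  | zero =>
    simp only [List.ofFn_zero, List.prod_nil]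
    exact hconst 1
  | succ r ih =>
    have e : (fun q => (List.ofFn fun j => g j q).prod) =
        (g 0) * fun q => (List.ofFn fun j : Fin r => g j.succ q).prod := by
      funext q
      rw [Pi.mul_apply, List.ofFn_succ, List.prod_cons]
    rw [e]
    exact hmul _ _ (hg 0) (ih (fun j => g j.succ) (fun j => hg j.succ))

/-- the quotient of consecutive terms of the lower central series -/
theorem exV (h3 : S_LCS) (G : Type) [Group G] (i : ℕ) :
    ∃ (V : Type) (_ : CommGroup V) (φ : lcs G i →* V), ∀ x, φ x = 1 ↔ (x : G) ∈ lcs G (i + 1) := by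
  have hN : ((lcs G (i + 1)).subgroupOf (lcs G i)).Normal := inferInstance
  have hc : ∀ x y : lcs G i ⧸ ((lcs G (i + 1)).subgroupOf (lcs G i)), x * y = y * x := by
    intro x y
    induction x using QuotientGroup.induction_on with | H x => ?_
    induction y using QuotientGroup.induction_on with | H y => ?_
    rw [← QuotientGroup.mk_mul, ← QuotientGroup.mk_mul, QuotientGroup.eq,
      Subgroup.mem_subgroupOf]
    have h := h3 G i i ((y : G)⁻¹) (inv_mem y.2) ((x : G)⁻¹) (inv_mem x.2)
    have hle : lcs G (i + i + 1) ≤ lcs G (i + 1) :=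
      Subgroup.lowerCentralSeries_antitone _ (by omega)
    have h' := hle h
    simp only [inv_inv] at h'
    simpa [mul_assoc] using h'
  refine ⟨lcs G i ⧸ ((lcs G (i + 1)).subgroupOf (lcs G i)),
    { (inferInstance : Group (lcs G i ⧸ ((lcs G (i + 1)).subgroupOf (lcs G i)))) with
      mul_comm := hc }, QuotientGroup.mk' _, ?_⟩
  intro x
  exact (QuotientGroup.eq_one_iff x).trans Subgroup.mem_subgroupOf

/-- iterated derivatives -/
theorem pdeg {i : ℕ} {V : Type} [CommGroup V] (φ : lcs G i →* V)
    (hφ : ∀ x, φ x = 1 ↔ (x : G) ∈ lcs G (i + 1)) (N2 n l : ℕ) (g : R → G)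
    (hg : ∀ x, g x ∈ lcs G i) (hp : IsPoly (RF1 R) (lcsF G N2) (n + 1) l g)
    (hle : lcsF G N2 (l + n + 1) ≤ lcs G (i + 1)) :
    PDeg n (fun x => φ ⟨g x, hg x⟩) := by
  have hmem : ∀ h : R, h ∈ RF1 R 1 := by
    intro h
    unfold RF1
    rw [if_pos le_rfl]
    exact AddSubgroup.mem_top h
  induction n generalizing l g with
  | zero =>
    intro h x
    have h1 := hp.2 1 le_rfl h (hmem h)
    have h2 : g (x + h) * (g x)⁻¹ ∈ lcs G (i + 1) := hle (h1 x)
    have h3 := (hφ ⟨g (x + h) * (g x)⁻¹, mul_mem (hg _) (inv_mem (hg _))⟩).mpr h2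
    have h4 : (⟨g (x + h) * (g x)⁻¹, mul_mem (hg _) (inv_mem (hg _))⟩ : lcs G i) =
        ⟨g (x + h), hg _⟩ * ⟨g x, hg x⟩⁻¹ := rfl
    rw [h4, map_mul, map_inv, mul_inv_eq_one] at h3
    exact h3
  | succ n ih =>
    intro h
    have h1 := hp.2 1 le_rfl h (hmem h)
    have h5 := ih (l + 1) (dd h g) (fun x => mul_mem (hg _) (inv_mem (hg _))) h1
      (by
        have e : l + 1 + n + 1 = l + (n + 1) + 1 := by ring
        rw [e]
        exact hle)
    have h6 : (fun x => φ ⟨dd h g x, mul_mem (hg _) (inv_mem (hg _))⟩) =
        fun x => φ ⟨g (x + h), hg _⟩ * (φ ⟨g x, hg x⟩)⁻¹ := by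
      funext x
      rw [← map_inv, ← map_mul]
      rfl
    rw [h6] at h5
    exact h5

end

theorem main (h1 : S_BP) (h2 : S_NEWT) (h3 : S_LCS) : S_T1 := by
  intro D G _ N i hN
  induction i with
  | zero =>
    refine ⟨0, fun j => j.elim0, fun j => j.elim0, 0, fun j => j.elim0, fun f _ q => ?_⟩
    exact Subgroup.mem_top _
  | succ i ih =>
    obtain ⟨r, m, w, N', hm, hex⟩ := ih
    set N2 := max N (max N' 1) with hN2
    have hN2N : N ≤ N2 := le_max_left _ _
    have hN2N' : N' ≤ N2 := (le_max_left _ _).trans (le_max_right _ _)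
    have hN21 : 1 ≤ N2 := (le_max_right _ _).trans (le_max_right _ _)
    obtain ⟨B, M, d', N0, -, hM, -, hnewt⟩ := h2 D (N2 * (i + 1))
    -- the words of the new family
    let wn : RR D → FreeGroup (RR D) := fun β =>
      FreeGroup.of β * ((List.ofFn fun j => (w j) ^ (m j β)).prod)⁻¹
    refine ⟨B.toList.length + r, Fin.append (fun j => M (B.toList.get j)) m,
      Fin.append (fun j => wn (B.toList.get j)) w, max d' N', ?_, ?_⟩
    · intro j
      refine Fin.addCases (fun j => ?_) (fun j => ?_) j
      · rw [Fin.append_left]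
        exact zdeg_mono (le_max_left _ _) (hM _)
      · rw [Fin.append_right]
        exact zdeg_mono (le_max_right _ _) (hm _)
    · intro f hf q
      -- the remainder
      let P : RR D → G := fun q => (List.ofFn fun j => (FreeGroup.lift f (w j)) ^ (m j q)).prod
      let u : RR D → G := fun q => f q * (P q)⁻¹
      have hu : ∀ q, u q ∈ lcs G i := fun q => hex f hf q
      have huB : BP N2 u := by
        obtain ⟨hmul, hinv, -, hpow, -⟩ := h1 (RR D) G N2 hN21
        obtain ⟨-, -, hmono, -, -⟩ := h1 (RR D) G N hN
        have hP : BP N2 P := bp_list h1 hN21 r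
          (fun j q => (FreeGroup.lift f (w j)) ^ (m j q))
          (fun j => hpow (m j) _ N' (hm j) hN2N')
        exact hmul f P⁻¹ (hmono N2 hN2N f hf) (hinv P hP)
      obtain ⟨V, _, φ, hφ⟩ := exV h3 G i
      have hle : lcsF G N2 (0 + N2 * (i + 1) + 1) ≤ lcs G (i + 1) := by
        unfold lcsF
        refine Subgroup.lowerCentralSeries_antitone _ ?_
        have e : 0 + N2 * (i + 1) + 1 + N2 - 1 = N2 * (i + 2) := by
          have : N2 * (i + 2) = N2 * (i + 1) + N2 := by ring
          omega
        rw [e, Nat.mul_div_cancel_left _ (by omega)]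
        omega
      have hpd := pdeg φ hφ N2 (N2 * (i + 1)) 0 u hu (huB _) hle
      have hq := hnewt V _ hpd q
      -- evaluation of the words
      have hwn : ∀ β, FreeGroup.lift f (wn β) = u β := by
        intro β
        simp only [wn, u, P, map_mul, map_inv, FreeGroup.lift_apply_of, map_list_prod,
          List.map_ofFn]
        congr 4
        funext j
        simp
      let U : RR D → lcs G i := fun q => ⟨u q, hu q⟩
      have hUq : φ (U q) = φ ((B.toList.map fun β => U β ^ (M β q)).prod) := by
        rw [map_list_prod, List.map_map]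
        have e1 : (B.toList.map (φ ∘ fun β => U β ^ (M β q))).prod =
            ∏ β ∈ B, φ (U β) ^ (M β q) := by
          rw [← Finset.prod_map_toList]
          congr 2
          funext β
          simp
        rw [e1]
        exact hq
      have hmem : (U q * ((B.toList.map fun β => U β ^ (M β q)).prod)⁻¹ : lcs G i).1 ∈
          lcs G (i + 1) := by
        rw [← hφ, map_mul, map_inv, hUq, mul_inv_cancel]
      have e2 : ((List.ofFn fun j => (FreeGroup.lift f
          (Fin.append (fun j => wn (B.toList.get j)) w j)) ^
          (Fin.append (fun j => M (B.toList.get j)) m j q)).prod) =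
          (B.toList.map fun β => u β ^ (M β q)).prod * P q := by
        have e3 : (fun j => (FreeGroup.lift f
            (Fin.append (fun j => wn (B.toList.get j)) w j)) ^
            (Fin.append (fun j => M (B.toList.get j)) m j q)) =
            Fin.append (fun j => u (B.toList.get j) ^ (M (B.toList.get j) q))
              (fun j => (FreeGroup.lift f (w j)) ^ (m j q)) := by
          funext j
          refine Fin.addCases (fun j => ?_) (fun j => ?_) j
          · rw [Fin.append_left, Fin.append_left, Fin.append_left, hwn]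
          · rw [Fin.append_right, Fin.append_right, Fin.append_right]
        rw [e3, List.ofFn_fin_append, List.prod_append]
        congr 2
        have := List.map_ofFn (f := B.toList.get) (g := fun β => u β ^ (M β q))
        rw [List.ofFn_get] at this
        rw [this]
        rfl
      rw [e2]
      have e4 : (U q * ((B.toList.map fun β => U β ^ (M β q)).prod)⁻¹ : lcs G i).1 =
          u q * ((B.toList.map fun β => u β ^ (M β q)).prod)⁻¹ := by
        have e5 := map_list_prod (lcs G i).subtype (B.toList.map fun β => U β ^ (M β q))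
        rw [List.map_map] at e5
        show u q * (((B.toList.map fun β => U β ^ (M β q)).prod : lcs G i) : G)⁻¹ = _
        congr 2
      rw [e4] at hmem
      have e6 : f q * ((B.toList.map fun β => u β ^ (M β q)).prod * P q)⁻¹ =
          u q * ((B.toList.map fun β => u β ^ (M β q)).prod)⁻¹ := by
        simp only [u, mul_inv_rev, mul_assoc]
      rw [e6]
      exact hmem

end Pool.Agent.W565.PR.T1
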